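import Pool.Agent.H71.AL.Targets

/-!
# (STP) one step of the back-and-forth argument
-/

set_option autoImplicit false

open Set
open Pool.Agent.AL

namespace Pool.Agent.H52.ALV

variable {ι : Type} {G : ι → ℝ → ℝ}

theorem sc_symm {x y : ℝ} (h : SC G x y) : SC G y x := by
  intro z hz
  rw [uIcc_comm] at hz
  exact h z hz

theorem sc_trans {x y z : ℝ} (h : SC G x y) (h' : SC G y z) : SC G x z := by
  intro u hu
  rcases uIcc_subset_uIcc_union_uIcc (a := x) (b := y) (c := z) hu with h1 | h1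
  · exact h u h1
  · exact h' u h1

theorem sc_mono {x y z : ℝ} (h : SC G x y) (hz : z ∈ uIcc x y) : SC G x z :=
  fun u hu => h u (uIcc_subset_uIcc_left hz hu)

theorem sc_left {x y : ℝ} (h : SC G x y) : x ∉ Fc G := h x left_mem_uIcc

theorem sc_right {x y : ℝ} (h : SC G x y) : y ∉ Fc G := h y right_mem_uIcc

theorem es_fc {x : ℝ} (h : Es rl G x) : x ∈ Fc G := subset_closure h

/-- a neighbourhood in the component -/
theorem nbh {z : ℝ} (hz : z ∉ Fc G) : ∃ ε > 0, ∀ x, |x - z| < ε → SC G z x := by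
  have h1 : IsOpen (Fc G)ᶜ := isClosed_closure.isOpen_compl
  obtain ⟨ε, hε, hb⟩ := Metric.isOpen_iff.1 h1 z hz
  refine ⟨ε, hε, fun x hx w hw => ?_⟩
  refine hb ?_
  rw [Metric.mem_ball, Real.dist_eq]
  exact (abs_sub_left_of_mem_uIcc hw).trans_lt hx

theorem ordG (hG : Gp rl G) (i : ι) {x y x' y' : ℝ} (h1 : x < y ↔ x' < y')
    (h2 : y < x ↔ y' < x') : G i x < G i y ↔ G i x' < G i y' := by
  rcases hG.mono i with h | h
  · have hm : StrictMono (G i) := fun a b hab => h a b hab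
    rw [hm.lt_iff_lt, hm.lt_iff_lt]
    exact h1
  · have hm : StrictAnti (G i) := fun a b hab => h a b hab
    rw [hm.lt_iff_gt, hm.lt_iff_gt]
    exact h2

/-- disjoint intervals are ordered -/
theorem disj {c c' d d' : ℝ} (h : ∀ z ∈ uIcc c c', z ∉ uIcc d d') :
    (c < d ↔ c' < d') ∧ (d < c ↔ d' < c') := by
  have h1 := h c left_mem_uIcc
  have h2 := h c' right_mem_uIcc
  have h3 : d ∉ uIcc c c' := fun h3 => h d h3 left_mem_uIcc
  have h4 : d' ∉ uIcc c c' := fun h4 => h d' h4 right_mem_uIcc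
  rw [mem_uIcc] at h1 h2 h3 h4
  grind

/-- the part of the domain in an interval of points in good intervals is finite -/
theorem fin_dom (hG : Gp rl G) (hN : T_FIN) {D D' : Set ℝ} {Θ : Set (ℝ × ℝ)}
    (hP : PM G D D' Θ) {a b : ℝ} (hab : ∀ z, a ≤ z → z ≤ b → Ws rl G z) :
    {c | (∃ c', (c, c') ∈ Θ) ∧ ¬ Es rl G c ∧ a ≤ c ∧ c ≤ b}.Finite := by
  obtain ⟨T, hT⟩ := hP.fin
  have h1 : (⋃ t ∈ {t | t ∈ T}, {x | (∃ i, G i (Prod.fst t) = x) ∧ a ≤ x ∧ x ≤ b}).Finite := by
    refine Set.Finite.biUnion (List.finite_toSet T) fun t _ => ?_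
    exact hN ι G hG a b hab (Prod.fst t)
  refine h1.subset ?_
  rintro c ⟨⟨c', hc⟩, hE, hac, hcb⟩
  rcases hT (c, c') hc with h | ⟨t, ht, i, hi⟩
  · exact absurd h hE
  · have h2 : c = G i t.1 := congrArg Prod.fst hi
    refine mem_biUnion (x := t) ht ?_
    exact ⟨⟨i, h2.symm⟩, hac, hcb⟩

/-- the choice of the image -/
theorem choice (hG : Gp rl G) (hC : T_CMP) (hN : T_FIN) {D D' : Set ℝ} (hD' : Ds D')
    (hCR : CR G D) {Θ : Set (ℝ × ℝ)} (hP : PM G D D' Θ) {d : ℝ} (hd : d ∈ D)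
    (hnd : ∀ d', (d, d') ∉ Θ) : ∃ d' ∈ D', SC G d d' ∧
      ∀ c c', (c, c') ∈ Θ → SC G d c → (c < d ↔ c' < d') ∧ (d < c ↔ d' < c') := by
  have hdE : ¬ Es rl G d := fun h => hnd d (hP.esp d h)
  have hdF : d ∉ Fc G := fun h => hdE (hCR.cl d hd h)
  -- the images are in the same component
  have himg : ∀ c c', (c, c') ∈ Θ → SC G d c → SC G d c' := by
    intro c c' hc hs
    rcases hP.sam (c, c') hc with h | h
    · exact absurd (es_fc h.1) (sc_right hs)
    · exact sc_trans hs h.2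
  have hle : ∀ c c' b b', (c, c') ∈ Θ → (b, b') ∈ Θ → c ≤ b → c' ≤ b' := by
    intro c c' b b' hc hb h
    by_contra h1
    exact absurd ((hP.ord (b, b') hb (c, c') hc).2 (not_le.1 h1)) (not_lt.2 h)
  -- it suffices to find an interval
  suffices hsuf : ∃ lo hi : ℝ, lo < hi ∧ (∀ x, lo < x → x < hi → SC G d x) ∧
      (∀ c c', (c, c') ∈ Θ → SC G d c → c < d → c' ≤ lo) ∧
      (∀ c c', (c, c') ∈ Θ → SC G d c → d < c → hi ≤ c') by
    obtain ⟨lo, hi, hlh, hsc, hlo, hhi⟩ := hsuf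
    obtain ⟨d', hd', h1, h2⟩ := hD' lo hi hlh
    refine ⟨d', hd', hsc d' h1 h2, fun c c' hc hs => ?_⟩
    rcases lt_trichotomy c d with h | h | h
    · have h3 := (hlo c c' hc hs h).trans_lt h1
      exact ⟨⟨fun _ => h3, fun _ => h⟩, ⟨fun h4 => absurd h4 h.le.not_gt,
        fun h4 => absurd h4 h3.le.not_gt⟩⟩
    · rw [h] at hc
      exact absurd hc (hnd c')
    · have h3 := h2.trans_le (hhi c c' hc hs h)
      exact ⟨⟨fun h4 => absurd h4 h.le.not_gt, fun h4 => absurd h4 h3.le.not_gt⟩,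
        ⟨fun _ => h3, fun _ => h⟩⟩
  by_cases hex : ∃ c c', (c, c') ∈ Θ ∧ SC G d c
  swap
  · -- nothing in the component
    obtain ⟨ε, hε, hb⟩ := nbh hdF
    refine ⟨d, d + ε, by linarith, fun x h1 h2 => hb x ?_, ?_, ?_⟩
    · rw [abs_of_pos (by linarith)]
      linarith
    · intro c c' hc hs
      exact absurd ⟨c, c', hc, hs⟩ hex
    · intro c c' hc hs
      exact absurd ⟨c, c', hc, hs⟩ hex
  by_cases hW : Ws rl G d
  swap
  · -- the orbit is in the domain
    exfalso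
    obtain ⟨c, c', hc, hs⟩ := hex
    have hcD := (hP.sub (c, c') hc).1
    have hcW : ¬ Ws rl G c := fun h => hW (hC ι G hG c d h (sc_symm hs))
    rcases lt_trichotomy c d with h | h | h
    · obtain ⟨i, hi⟩ := hCR.tr c hcD d hd h (sc_symm hs) hcW
      have h1 := hP.inv (c, c') hc i
      rw [hi] at h1
      exact hnd _ h1
    · rw [h] at hc
      exact hnd _ hc
    · obtain ⟨i, hi⟩ := hCR.tr d hd c hcD h hs hW
      obtain ⟨j, hj, -⟩ := hG.inv i
      have h1 := hP.inv (c, c') hc j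
      have h2 : G j c = d := by rw [← hi]; exact hj d
      rw [h2] at h1
      exact hnd _ h1
  · -- the largest one below and the smallest one above
    have hWs : ∀ z, SC G d z → Ws rl G z := fun z hz => hC ι G hG d z hW hz
    have hL : (∀ c c', (c, c') ∈ Θ → SC G d c → ¬ c < d) ∨ ∃ m m', (m, m') ∈ Θ ∧ SC G d m ∧
        m < d ∧ ∀ c c', (c, c') ∈ Θ → SC G d c → c < d → c ≤ m := by
      by_cases h0 : ∃ c c', (c, c') ∈ Θ ∧ SC G d c ∧ c < d
      · right
        obtain ⟨c₀, c₀', hc₀, hs₀, hlt₀⟩ := h0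
        have hI : ∀ z, c₀ ≤ z → z ≤ d → SC G d z := by
          intro z h1 h2
          refine sc_mono hs₀ ?_
          rw [uIcc_of_ge hlt₀.le]
          exact ⟨h1, h2⟩
        have hf := fin_dom hG hN hP (a := c₀) (b := d) fun z h1 h2 => hWs z (hI z h1 h2)
        obtain ⟨m, hm, hmax⟩ := Set.exists_max_image _ id hf
          ⟨c₀, ⟨c₀', hc₀⟩, fun h => sc_right hs₀ (es_fc h), le_refl _, hlt₀.le⟩
        obtain ⟨⟨m', hm'⟩, hmE, hm1, hm2⟩ := hm
        have hmd : m ≠ d := by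
          intro h
          rw [h] at hm'
          exact hnd _ hm'
        refine ⟨m, m', hm', hI m hm1 hm2, lt_of_le_of_ne hm2 hmd, fun c c' hc hs hcd => ?_⟩
        rcases le_total c c₀ with h | h
        · exact h.trans hm1
        · exact hmax c ⟨⟨c', hc⟩, fun h' => sc_right hs (es_fc h'), h, hcd.le⟩
      · left
        intro c c' hc hs hlt
        exact h0 ⟨c, c', hc, hs, hlt⟩
    have hU : (∀ c c', (c, c') ∈ Θ → SC G d c → ¬ d < c) ∨ ∃ m m', (m, m') ∈ Θ ∧ SC G d m ∧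
        d < m ∧ ∀ c c', (c, c') ∈ Θ → SC G d c → d < c → m ≤ c := by
      by_cases h0 : ∃ c c', (c, c') ∈ Θ ∧ SC G d c ∧ d < c
      · right
        obtain ⟨c₀, c₀', hc₀, hs₀, hlt₀⟩ := h0
        have hI : ∀ z, d ≤ z → z ≤ c₀ → SC G d z := by
          intro z h1 h2
          refine sc_mono hs₀ ?_
          rw [uIcc_of_le hlt₀.le]
          exact ⟨h1, h2⟩
        have hf := fin_dom hG hN hP (a := d) (b := c₀) fun z h1 h2 => hWs z (hI z h1 h2)
        obtain ⟨m, hm, hmin⟩ := Set.exists_min_image _ id hf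
          ⟨c₀, ⟨c₀', hc₀⟩, fun h => sc_right hs₀ (es_fc h), hlt₀.le, le_refl _⟩
        obtain ⟨⟨m', hm'⟩, hmE, hm1, hm2⟩ := hm
        have hmd : d ≠ m := by
          intro h
          rw [← h] at hm'
          exact hnd _ hm'
        refine ⟨m, m', hm', hI m hm1 hm2, lt_of_le_of_ne hm1 hmd, fun c c' hc hs hcd => ?_⟩
        rcases le_total c₀ c with h | h
        · exact hm2.trans h
        · exact hmin c ⟨⟨c', hc⟩, fun h' => sc_right hs (es_fc h'), hcd.le, h⟩
      · left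
        intro c c' hc hs hlt
        exact h0 ⟨c, c', hc, hs, hlt⟩
    rcases hL with hL | ⟨m, m', hm, hms, hmd, hmax⟩ <;>
      rcases hU with hU | ⟨u, u', hu, hus, hud, humin⟩
    · exfalso
      obtain ⟨c, c', hc, hs⟩ := hex
      rcases lt_trichotomy c d with h | h | h
      · exact hL c c' hc hs h
      · rw [h] at hc
        exact hnd _ hc
      · exact hU c c' hc hs h
    · obtain ⟨ε, hε, hb⟩ := nbh (sc_right (himg u u' hu hus))
      refine ⟨u' - ε, u', by linarith, fun x h1 h2 => ?_, ?_, ?_⟩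
      · refine sc_trans (himg u u' hu hus) (hb x ?_)
        rw [abs_of_neg (by linarith)]
        linarith
      · intro c c' hc hs h
        exact absurd h (hL c c' hc hs)
      · intro c c' hc hs h
        exact hle u u' c c' hu hc (humin c c' hc hs h)
    · obtain ⟨ε, hε, hb⟩ := nbh (sc_right (himg m m' hm hms))
      refine ⟨m', m' + ε, by linarith, fun x h1 h2 => ?_, ?_, ?_⟩
      · refine sc_trans (himg m m' hm hms) (hb x ?_)
        rw [abs_of_pos (by linarith)]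
        linarith
      · intro c c' hc hs h
        exact hle c c' m m' hc hm (hmax c c' hc hs h)
      · intro c c' hc hs h
        exact absurd h (hU c c' hc hs)
    · refine ⟨m', u', (hP.ord (m, m') hm (u, u') hu).1 (hmd.trans hud), fun x h1 h2 => ?_, ?_, ?_⟩
      · have h3 : SC G m' u' := sc_trans (sc_symm (himg m m' hm hms)) (himg u u' hu hus)
        refine sc_trans (himg m m' hm hms) (sc_mono h3 ?_)
        rw [uIcc_of_le (h1.trans h2).le]
        exact ⟨h1.le, h2.le⟩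
      · intro c c' hc hs h
        exact hle c c' m m' hc hm (hmax c c' hc hs h)
      · intro c c' hc hs h
        exact hle u u' c c' hu hc (humin c c' hc hs h)

theorem pf_STP (hI : T_INV) (hE : T_ESW) (hF : T_FRE) (hC : T_CMP) (hN : T_FIN) : T_STP := by
  intro ι G hG D D' hD' hIv hIv' hCR hCR' Θ hP d hd
  by_cases hdom : ∃ d', (d, d') ∈ Θ
  · exact ⟨Θ, subset_rfl, hP, hdom⟩
  have hnd : ∀ d', (d, d') ∉ Θ := fun d' h => hdom ⟨d', h⟩
  obtain ⟨d', hd', hsc, hord⟩ := choice hG hC hN hD' hCR hP hd hnd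
  have hdF : d ∉ Fc G := sc_left hsc
  obtain ⟨i₀, hi₀⟩ := hG.one
  -- the order of the new pair and the old ones
  have hnew : ∀ c c', (c, c') ∈ Θ → (c < d ↔ c' < d') ∧ (d < c ↔ d' < c') := by
    intro c c' hc
    by_cases hs : SC G d c
    · exact hord c c' hc hs
    · refine disj fun z hz hz' => ?_
      rcases hP.sam (c, c') hc with h | h
      · have h1 : c' = c := h.2
        rw [h1, uIcc_self, mem_singleton_iff] at hz
        rw [hz] at hz'
        exact hsc c hz' (es_fc h.1)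
      · have h1 : SC G c z := sc_mono h.2 hz
        exact hs (sc_trans (sc_mono hsc hz') (sc_symm h1))
  have hmix : ∀ p ∈ Θ, ∀ i, (p.1 < G i d ↔ p.2 < G i d') ∧ (G i d < p.1 ↔ G i d' < p.2) := by
    intro p hp i
    obtain ⟨j, hj1, hj2⟩ := hG.inv i
    have h1 := hnew _ _ (hP.inv p hp j)
    have h2 := ordG hG i h1.1 h1.2
    have h3 := ordG hG i h1.2 h1.1
    rw [hj2, hj2] at h2 h3
    exact ⟨h2, h3⟩
  have hfix : ∀ k, (d < G k d ↔ d' < G k d') ∧ (G k d < d ↔ G k d' < d') := by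
    intro k
    have h1 := hF ι G hG d d' hsc k
    have h2 := hF ι G hG d' d (sc_symm hsc) k
    exact ⟨⟨h1.2.1, h2.2.1⟩, ⟨h1.2.2.1, h2.2.2.1⟩⟩
  refine ⟨Θ ∪ {p | ∃ i, p = (G i d, G i d')}, subset_union_left, ⟨?_, ?_, ?_, ?_, ?_, ?_⟩,
    ⟨d', Or.inr ⟨i₀, by rw [hi₀, hi₀]⟩⟩⟩
  · rintro p (hp | ⟨i, rfl⟩)
    · exact hP.sub p hp
    · exact ⟨hIv i d hd, hIv' i d' hd'⟩
  · rintro p (hp | ⟨i, rfl⟩) j
    · exact Or.inl (hP.inv p hp j)
    · obtain ⟨k, hk⟩ := hG.mul j i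
      exact Or.inr ⟨k, by rw [hk, hk]⟩
  · rintro p (hp | ⟨i, rfl⟩) q (hq | ⟨j, rfl⟩)
    · exact hP.ord p hp q hq
    · exact (hmix p hp j).1
    · exact (hmix q hq i).2
    · obtain ⟨i', hi1, hi2⟩ := hG.inv i
      obtain ⟨k, hk⟩ := hG.mul i' j
      have h1 := ordG hG i (hfix k).1 (hfix k).2
      rw [hk, hk, hi2, hi2] at h1
      exact h1
  · rintro p (hp | ⟨i, rfl⟩)
    · exact hP.sam p hp
    · right
      refine ⟨fun h => ?_, (hI ι G hG i).2.2.2.2 d d' hsc⟩
      obtain ⟨j, hj1, hj2⟩ := hG.inv i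
      have h1 := (hI ι G hG j).2.2.2.1 _ h
      rw [hj1] at h1
      exact hdF h1
  · intro x hx
    exact Or.inl (hP.esp x hx)
  · obtain ⟨T, hT⟩ := hP.fin
    refine ⟨(d, d') :: T, ?_⟩
    rintro p (hp | ⟨i, rfl⟩)
    · rcases hT p hp with h | ⟨t, ht, i, hi⟩
      · exact Or.inl h
      · exact Or.inr ⟨t, List.mem_cons_of_mem _ ht, i, hi⟩
    · exact Or.inr ⟨(d, d'), List.mem_cons_self, i, rfl⟩

end Pool.Agent.H52.ALV
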