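import Pool.Agent.H71.AL.Targets

/-!
# (UNI) canonical sets are unique
-/

set_option autoImplicit false

open Set
open Pool.Agent.AL

namespace Pool.Agent.H52.ALV

section

variable {ι : Type} {G : ι → ℝ → ℝ}

/-- the inverse partial map -/
theorem pm_swap {D D' : Set ℝ} {Θ : Set (ℝ × ℝ)} (hP : PM G D D' Θ) :
    PM G D' D {p | (p.2, p.1) ∈ Θ} := by
  have hsam : ∀ a b, (a, b) ∈ Θ → Es rl G a → b = a := by
    intro a b hab ha
    rcases hP.sam (a, b) hab with h | h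
    · exact h.2
    · exact absurd (show a ∈ Fc G from subset_closure ha) h.1
  refine ⟨?_, ?_, ?_, ?_, ?_, ?_⟩
  · intro p hp
    exact ⟨(hP.sub _ hp).2, (hP.sub _ hp).1⟩
  · intro p hp i
    exact hP.inv _ hp i
  · intro p hp q hq
    exact (hP.ord _ hp _ hq).symm
  · intro p hp
    rcases hP.sam _ hp with h | h
    · left
      have h1 : p.1 = p.2 := h.2
      exact ⟨by rw [h1]; exact h.1, h1.symm⟩
    · right
      have h1 : SC G p.2 p.1 := h.2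
      refine ⟨h1 _ right_mem_uIcc, fun z hz => h1 z ?_⟩
      rw [uIcc_comm]
      exact hz
  · intro x hx
    exact hP.esp x hx
  · obtain ⟨T, hT⟩ := hP.fin
    refine ⟨T.map Prod.swap, fun p hp => ?_⟩
    rcases hT _ hp with h | ⟨t, ht, i, hi⟩
    · left
      have h0 : Es rl G p.2 := h
      have h1 : p.1 = p.2 := hsam _ _ hp h0
      rw [h1]
      exact h0
    · right
      refine ⟨t.swap, List.mem_map_of_mem ht, i, ?_⟩
      have h1 : p.2 = G i t.1 := congrArg Prod.fst hi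
      have h2 : p.1 = G i t.2 := congrArg Prod.snd hi
      exact Prod.ext h2 h1

/-- the start -/
theorem pm_start (hI : T_INV) (hG : Gp rl G) {D D' : Set ℝ} (hD : CR G D) (hD' : CR G D') :
    PM G D D' {p | Es rl G p.1 ∧ p.2 = p.1} := by
  refine ⟨?_, ?_, ?_, ?_, ?_, ?_⟩
  · rintro ⟨a, b⟩ ⟨h, h'⟩
    have h1 : b = a := h'
    subst h1
    exact ⟨hD.es _ h, hD'.es _ h⟩
  · rintro ⟨a, b⟩ ⟨h, h'⟩ i
    have h1 : b = a := h'
    subst h1
    exact ⟨(hI ι G hG i).2.2.1 _ h, rfl⟩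
  · rintro ⟨a, b⟩ ⟨_, h⟩ ⟨a', b'⟩ ⟨_, h'⟩
    have h1 : b = a := h
    have h2 : b' = a' := h'
    subst h1 h2
    exact Iff.rfl
  · intro p hp
    exact Or.inl hp
  · intro x hx
    exact ⟨hx, rfl⟩
  · exact ⟨[], fun p hp => Or.inl hp.1⟩

end

theorem pf_UNI (hI : T_INV) (hS : T_STP) : T_UNI := by
  intro ι G hG e e' he he' hD hD' hIv hIv' hC hC'
  -- one step
  have hstep : ∀ (Θ : {Θ // PM G (range e) (range e') Θ}) (n : ℕ),
      ∃ Θ' : {Θ // PM G (range e) (range e') Θ}, Θ.1 ⊆ Θ'.1 ∧ (∃ y, (e n, y) ∈ Θ'.1) ∧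
        ∃ x, (x, e' n) ∈ Θ'.1 := by
    rintro ⟨Θ, hP⟩ n
    obtain ⟨Θ₁, h1, hP1, y, hy⟩ := hS ι G hG (range e) (range e') hD' hIv hIv' hC hC' Θ hP (e n)
      ⟨n, rfl⟩
    obtain ⟨Θ₂, h2, hP2, x, hx⟩ := hS ι G hG (range e') (range e) hD hIv' hIv hC' hC _
      (pm_swap hP1) (e' n) ⟨n, rfl⟩
    refine ⟨⟨_, pm_swap hP2⟩, ?_, ⟨y, ?_⟩, ⟨x, hx⟩⟩
    · intro p hp
      exact h2 (show (p.2, p.1) ∈ {p : ℝ × ℝ | (p.2, p.1) ∈ Θ₁} from h1 hp)
    · exact h2 (show (y, e n) ∈ {p : ℝ × ℝ | (p.2, p.1) ∈ Θ₁} from hy)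
  choose F hF1 hF2 hF3 using hstep
  let q : ℕ → {Θ // PM G (range e) (range e') Θ} :=
    fun n => Nat.rec ⟨_, pm_start hI hG hC hC'⟩ (fun n Θ => F Θ n) n
  have hq : ∀ n, q (n + 1) = F (q n) n := fun n => rfl
  have hmono : Monotone fun n => (q n).1 := by
    refine monotone_nat_of_le_succ fun n => ?_
    rw [hq]
    exact hF1 (q n) n
  have hord : ∀ a b c d : ℝ, (∃ n, (a, b) ∈ (q n).1) → (∃ n, (c, d) ∈ (q n).1) →
      (a < c ↔ b < d) := by
    rintro a b c d ⟨n, hn⟩ ⟨m, hm⟩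
    exact (q (max n m)).2.ord (a, b) (hmono (le_max_left n m) hn) (c, d)
      (hmono (le_max_right n m) hm)
  have heq : ∀ a b c d : ℝ, (∃ n, (a, b) ∈ (q n).1) → (∃ n, (c, d) ∈ (q n).1) →
      (a = c ↔ b = d) := by
    intro a b c d h1 h2
    have h3 := hord a b c d h1 h2
    have h4 := hord c d a b h2 h1
    constructor
    · intro h
      rcases lt_trichotomy b d with h5 | h5 | h5
      · exact absurd (h3.2 h5) (by rw [h]; exact lt_irrefl _)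
      · exact h5
      · exact absurd (h4.2 h5) (by rw [h]; exact lt_irrefl _)
    · intro h
      rcases lt_trichotomy a c with h5 | h5 | h5
      · exact absurd (h3.1 h5) (by rw [h]; exact lt_irrefl _)
      · exact h5
      · exact absurd (h4.1 h5) (by rw [h]; exact lt_irrefl _)
  have h1 : ∀ m, ∃ n, ∃ k, (e m, e' n) ∈ (q k).1 := by
    intro m
    obtain ⟨y, hy⟩ := hF2 (q m) m
    rw [← hq] at hy
    obtain ⟨n, hn⟩ := ((q (m + 1)).2.sub _ hy).2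
    exact ⟨n, m + 1, by rw [hn]; exact hy⟩
  have h2 : ∀ n, ∃ m, ∃ k, (e m, e' n) ∈ (q k).1 := by
    intro n
    obtain ⟨x, hx⟩ := hF3 (q n) n
    rw [← hq] at hx
    obtain ⟨m, hm⟩ := ((q (n + 1)).2.sub _ hx).1
    exact ⟨m, n + 1, by rw [hm]; exact hx⟩
  choose π hπ using h1
  choose ρ hρ using h2
  refine ⟨⟨π, ρ, fun m => ?_, fun n => ?_⟩, fun m n => ?_, fun i m n => ?_⟩
  · exact he ((heq _ _ _ _ (hρ (π m)) (hπ m)).2 rfl)
  · exact he' ((heq _ _ _ _ (hπ (ρ n)) (hρ n)).1 rfl)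
  · exact hord _ _ _ _ (hπ m) (hπ n)
  · refine heq _ _ _ _ ?_ (hπ n)
    obtain ⟨k, hk⟩ := hπ m
    exact ⟨k, (q k).2.inv _ hk i⟩

end Pool.Agent.H52.ALV
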